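import Pool.Agent.helper7.AL.SpecM

/-!
# MP_bf63dc_nt, row MPI: pigeonhole
-/

set_option autoImplicit false

namespace Pool.Agent.AL

open Finset Pool.Agent.helper85.FC Pool.Agent.helper11.MK

lemma MPI_class (k P : ℕ) (hP : 1 ≤ P) (X : Finset ℤ) (hX : #X = k * P) :
    ∃ (α : ℤ) (X' : Finset ℤ), X' ⊆ X ∧ #X' = k ∧ ∀ x ∈ X', (P : ℤ) ∣ x - α := by
  classical
  have hP0 : (0 : ℤ) < P := by exact_mod_cast hP
  have hmaps : ∀ x ∈ X, x % (P : ℤ) ∈ Ico (0 : ℤ) P := by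
    intro x _
    rw [mem_Ico]
    exact ⟨Int.emod_nonneg _ hP0.ne', Int.emod_lt_of_pos _ hP0⟩
  have hne : (Ico (0 : ℤ) P).Nonempty := ⟨0, by rw [mem_Ico]; exact ⟨le_refl _, hP0⟩⟩
  have hcard : #(Ico (0 : ℤ) P) * k ≤ #X := by
    rw [Int.card_Ico, sub_zero, Int.toNat_natCast, hX, Nat.mul_comm]
  obtain ⟨α, -, hα⟩ := exists_le_card_fiber_of_mul_le_card_of_maps_to hmaps hne hcard
  obtain ⟨X', hX', hc⟩ := exists_subset_card_eq hα
  refine ⟨α, X', hX'.trans (filter_subset _ _), hc, ?_⟩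
  intro x hx
  have h1 := (mem_filter.mp (hX' hx)).2
  rw [← h1]
  exact Int.dvd_self_sub_emod

theorem MPI : MPI_stmt := by
  classical
  intro k P m hk hP hm hT
  unfold TCM at hT
  push Not at hT
  obtain ⟨X, Y, hX, hY, hXY, hbad⟩ := hT
  obtain ⟨α, X', hX'1, hX'2, hX'3⟩ := MPI_class k P hP X hX
  obtain ⟨β, Y', hY'1, hY'2, hY'3⟩ := MPI_class k P hP Y hY
  have hx : X'.Nonempty := by
    rw [← card_pos, hX'2]
    exact hk
  have hy : Y'.Nonempty := by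
    rw [← card_pos, hY'2]
    exact hk
  obtain ⟨x₀, hx₀⟩ := hx
  obtain ⟨y₀, hy₀⟩ := hy
  have hinj : Function.Injective (fun x : ℤ => x - x₀) := fun x y h => by simpa using h
  have hd : ∀ x ∈ X', ∀ y ∈ Y', ((2 * m : ℕ) : ℤ) ∣ y - x := fun x hx y hy =>
    (hXY x (hX'1 hx) y (hY'1 hy)).2
  refine ⟨X'.image (fun x => x - x₀), Y'.image (fun x => x - x₀), y₀ - x₀, ?_, ?_, ?_, ?_, ?_, ?_⟩
  · rw [card_image_of_injective _ hinj, hX'2]
  · rw [card_image_of_injective _ hinj, hY'2]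
  · exact hd x₀ hx₀ y₀ hy₀
  · intro x hx
    obtain ⟨x', hx', rfl⟩ := mem_image.mp hx
    constructor
    · have h1 := dvd_sub (hX'3 x' hx') (hX'3 x₀ hx₀)
      have e : x' - α - (x₀ - α) = x' - x₀ := by ring
      rwa [e] at h1
    · have h1 := dvd_sub (hd x₀ hx₀ y₀ hy₀) (hd x' hx' y₀ hy₀)
      have e : y₀ - x₀ - (y₀ - x') = x' - x₀ := by ring
      rwa [e] at h1
  · intro y hy
    obtain ⟨y', hy', rfl⟩ := mem_image.mp hy
    constructor
    · have h1 := dvd_sub (hY'3 y' hy') (hY'3 y₀ hy₀)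
      have e : y' - β - (y₀ - β) = y' - x₀ - (y₀ - x₀) := by ring
      rwa [e] at h1
    · exact hd x₀ hx₀ y' hy'
  · intro x hx y hy
    obtain ⟨x', hx', rfl⟩ := mem_image.mp hx
    obtain ⟨y', hy', rfl⟩ := mem_image.mp hy
    have e : y' - x₀ - (x' - x₀) = y' - x' := by ring
    rw [e]
    have h1 := hXY x' (hX'1 hx') y' (hY'1 hy')
    refine ⟨?_, ?_, hbad x' (hX'1 hx') y' (hY'1 hy')⟩
    · intro h0
      exact h1.1 (by omega)
    · obtain ⟨t, ht⟩ := h1.2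
      rw [ht]
      push_cast
      exact ⟨m * t, by ring⟩

end Pool.Agent.AL
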