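import Pool.Agent.helper7.AL.SpecG

/-!
# MP_bf63dc_nt, row GSP: the exceptional differences are sparse, for every pair
-/

set_option autoImplicit false

namespace Pool.Agent.AL

open Finset Pool.Agent.helper85.FC Pool.Agent.helper11.MK

theorem GSP_rep (a b : ℕ) (hb : 0 < b) (hab : Nat.Coprime a b) (c : ℤ) :
    ∃ x : ℤ, 0 < x ∧ x ≤ b ∧ (b : ℤ) ∣ a * x - c := by
  have hco : IsCoprime (a : ℤ) (b : ℤ) := Nat.isCoprime_iff_coprime.2 hab
  obtain ⟨s, t, hst⟩ := hco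
  have hbz : (0 : ℤ) < b := by exact_mod_cast hb
  refine ⟨(s * c - 1) % b + 1, ?_, ?_, ?_⟩
  · have := Int.emod_nonneg (s * c - 1) hbz.ne'
    omega
  · have := Int.emod_lt_of_pos (s * c - 1) hbz
    omega
  · have h1 : (s * c - 1) % (b : ℤ) = (s * c - 1) - b * ((s * c - 1) / b) := by
      have := Int.emod_add_mul_ediv (s * c - 1) (b : ℤ)
      linarith
    rw [h1]
    refine ⟨-(t * c) - a * ((s * c - 1) / b), ?_⟩
    have h2 : (a : ℤ) * s * c = c - t * b * c := by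
      have : s * (a : ℤ) = 1 - t * b := by linarith
      calc (a : ℤ) * s * c = (s * a) * c := by ring
        _ = (1 - t * b) * c := by rw [this]
        _ = c - t * b * c := by ring
    linear_combination h2

theorem GSP (h : KSB_stmt) : GSP_stmt := by
  classical
  intro K a₀ b₀ hK ha₀ hb₀ hab hT
  obtain ⟨C₀, hC₀, hKSB⟩ := h K hK
  have hC : 0 < C₀ * ((a₀ : ℝ) + b₀ + 2) ^ 2 := by positivity
  refine ⟨C₀ * ((a₀ : ℝ) + b₀ + 2) ^ 2, hC, fun u N => ?_⟩
  by_contra hcon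
  push Not at hcon
  rcases Nat.eq_zero_or_pos N with hN | hN
  · subst hN
    have h1 : (#{c ∈ Ioc u (u + ((0 : ℕ) : ℤ)) | BadG a₀ b₀ c} : ℝ) = 0 := by simp
    rw [h1] at hcon
    have h2 : 0 ≤ C₀ * ((a₀ : ℝ) + b₀ + 2) ^ 2 * ((0 : ℕ) : ℝ) ^ (1 - 1 / (K : ℝ)) := by positivity
    linarith
  · have hN0 : (0 : ℝ) < N := by exact_mod_cast hN
    have hNz : (1 : ℤ) ≤ N := by exact_mod_cast hN
    have haz : (1 : ℤ) ≤ a₀ := by exact_mod_cast ha₀
    have hbz : (1 : ℤ) ≤ b₀ := by exact_mod_cast hb₀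
    set F : Finset ℤ := {c ∈ Ioc u (u + (N : ℤ)) | BadG a₀ b₀ c} with hF
    set N' : ℕ := (a₀ + b₀ + 2) * N with hN'
    set q : ℤ := (-u - N) / b₀ with hq
    have hq1 : q * b₀ ≤ -u - N := Int.ediv_mul_le _ (by omega)
    have hq2 : -u - N < (q + 1) * b₀ := Int.lt_ediv_add_one_mul_self _ (by omega)
    set L : Finset ℤ := Ioc (0 : ℤ) (b₀ * N) with hL
    set R : Finset ℤ := Ioc q (q + 2 * (N' : ℤ)) with hR
    set E : Finset (ℤ × ℤ) := (L ×ˢ R).filter (fun e => BadG a₀ b₀ (a₀ * e.1 - b₀ * e.2)) with hE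
    have hLc : #L ≤ N' := by
      rw [hL, Int.card_Ioc, sub_zero, hN']
      have : ((b₀ : ℤ) * N).toNat = b₀ * N := by
        rw [← Nat.cast_mul, Int.toNat_natCast]
      rw [this]
      exact Nat.mul_le_mul_right _ (by omega)
    have hRc : #R ≤ 2 * N' := by
      rw [hR, Int.card_Ioc]
      omega
    choose x₀ hx₀1 hx₀2 hx₀3 using fun c : ℤ => GSP_rep a₀ b₀ hb₀ hab c
    choose y₀ hy₀ using hx₀3
    have hcard : #(range N ×ˢ F) ≤ #E := by
      apply Finset.card_le_card_of_injOn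
        (fun e : ℕ × ℤ => (x₀ e.2 + b₀ * (e.1 : ℤ), y₀ e.2 + a₀ * (e.1 : ℤ)))
      · rintro ⟨t, c⟩ htc
        rw [Finset.mem_coe, Finset.mem_product, hF, Finset.mem_range, Finset.mem_filter, Finset.mem_Ioc] at htc
        obtain ⟨ht, ⟨hc1, hc2⟩, hbad⟩ := htc
        simp only at ht hc1 hc2 hbad
        have htz : (t : ℤ) + 1 ≤ N := by exact_mod_cast ht
        have ht0 : (0 : ℤ) ≤ t := by positivity
        have key : (a₀ : ℤ) * (x₀ c + b₀ * t) - b₀ * (y₀ c + a₀ * t) = c := by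
          have := hy₀ c
          linarith
        have hxpos : 0 < x₀ c + b₀ * (t : ℤ) := by
          have := hx₀1 c
          positivity
        have hxle : x₀ c + b₀ * (t : ℤ) ≤ b₀ * N := by
          have h1 := hx₀2 c
          nlinarith
        rw [Finset.mem_coe, hE, Finset.mem_filter, Finset.mem_product, hL, hR, Finset.mem_Ioc, Finset.mem_Ioc]
        simp only
        refine ⟨⟨⟨hxpos, hxle⟩, ?_, ?_⟩, ?_⟩
        · -- q < y
          by_contra hcc
          push Not at hcc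
          have h3 : (b₀ : ℤ) * (y₀ c + a₀ * t) ≤ b₀ * q := mul_le_mul_of_nonneg_left hcc (by omega)
          have h4 : (1 : ℤ) ≤ a₀ * (x₀ c + b₀ * t) := by nlinarith
          linarith
        · by_contra hcc
          push Not at hcc
          have h5 : q + (a₀ + 1) * (N : ℤ) + 1 ≤ y₀ c + a₀ * t := by
            have : q + 2 * (N' : ℤ) < y₀ c + a₀ * t := hcc
            have h6 : ((N' : ℕ) : ℤ) = (a₀ + b₀ + 2) * N := by rw [hN']; push_cast; ring
            rw [h6] at this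
            nlinarith
          have h3 : (b₀ : ℤ) * (q + (a₀ + 1) * (N : ℤ) + 1) ≤ b₀ * (y₀ c + a₀ * t) :=
            mul_le_mul_of_nonneg_left h5 (by omega)
          have h4 : (a₀ : ℤ) * (x₀ c + b₀ * t) ≤ a₀ * (b₀ * N) := mul_le_mul_of_nonneg_left hxle (by omega)
          nlinarith
        · rw [key]
          exact hbad
      · rintro ⟨t, c⟩ _ ⟨t', c'⟩ _ he
        simp only [Prod.mk.injEq] at he
        obtain ⟨h1, h2⟩ := he
        have key1 : (a₀ : ℤ) * (x₀ c + b₀ * t) - b₀ * (y₀ c + a₀ * t) = c := by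
          have := hy₀ c
          linarith
        have key2 : (a₀ : ℤ) * (x₀ c' + b₀ * t') - b₀ * (y₀ c' + a₀ * t') = c' := by
          have := hy₀ c'
          linarith
        have hcc : c = c' := by rw [← key1, ← key2, h1, h2]
        subst hcc
        have h3 : (b₀ : ℤ) * t = b₀ * t' := by linarith
        have h4 : (t : ℤ) = t' := mul_left_cancel₀ (by omega) h3
        exact Prod.ext (by exact_mod_cast h4) rfl
    rw [Finset.card_product, Finset.card_range] at hcard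
    have hlt : C₀ * (N' : ℝ) ^ (2 - 1 / (K : ℝ)) < #E := by
      have hm1 : (1 : ℝ) ≤ (a₀ : ℝ) + b₀ + 2 := by
        have : (0 : ℝ) ≤ a₀ := by positivity
        have : (0 : ℝ) ≤ b₀ := by positivity
        linarith
      have hN'r : (N' : ℝ) = ((a₀ : ℝ) + b₀ + 2) * N := by rw [hN']; push_cast; ring
      have h0 : (N' : ℝ) ^ (2 - 1 / (K : ℝ)) =
          ((a₀ : ℝ) + b₀ + 2) ^ (2 - 1 / (K : ℝ)) * (N : ℝ) ^ (2 - 1 / (K : ℝ)) := by
        rw [hN'r, Real.mul_rpow (by linarith) hN0.le]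
      have h00 : ((a₀ : ℝ) + b₀ + 2) ^ (2 - 1 / (K : ℝ)) ≤ ((a₀ : ℝ) + b₀ + 2) ^ 2 := by
        rw [← Real.rpow_natCast ((a₀ : ℝ) + b₀ + 2) 2]
        apply Real.rpow_le_rpow_of_exponent_le hm1
        have : (0 : ℝ) ≤ 1 / (K : ℝ) := by positivity
        push_cast
        linarith
      have h1 : (N : ℝ) ^ (2 - 1 / (K : ℝ)) = N * (N : ℝ) ^ (1 - 1 / (K : ℝ)) := by
        rw [show (2 - 1 / (K : ℝ)) = 1 + (1 - 1 / (K : ℝ)) by ring, Real.rpow_add hN0, Real.rpow_one]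
      have h2 : ((N * #F : ℕ) : ℝ) ≤ #E := by exact_mod_cast hcard
      push_cast at h2
      calc C₀ * (N' : ℝ) ^ (2 - 1 / (K : ℝ))
          = C₀ * (((a₀ : ℝ) + b₀ + 2) ^ (2 - 1 / (K : ℝ)) * (N : ℝ) ^ (2 - 1 / (K : ℝ))) := by rw [h0]
        _ ≤ C₀ * (((a₀ : ℝ) + b₀ + 2) ^ 2 * (N : ℝ) ^ (2 - 1 / (K : ℝ))) := by
            apply mul_le_mul_of_nonneg_left _ hC₀.le
            exact mul_le_mul_of_nonneg_right h00 (by positivity)
        _ = N * (C₀ * ((a₀ : ℝ) + b₀ + 2) ^ 2 * (N : ℝ) ^ (1 - 1 / (K : ℝ))) := by rw [h1]; ring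
        _ < N * (#F : ℝ) := mul_lt_mul_of_pos_left hcon hN0
        _ ≤ #E := h2
    obtain ⟨X, hX, Y, hY, hXc, hYc, hXY⟩ := hKSB N' L R E hLc hRc (Finset.filter_subset _ _) hlt
    have hbad : ∀ x ∈ X, ∀ y ∈ Y, BadG a₀ b₀ (a₀ * x - b₀ * y) :=
      fun x hx y hy => (Finset.mem_filter.1 (hXY x hx y hy)).2
    obtain ⟨x, hx, y, hy, ht⟩ := hT X Y hXc hYc (fun x hx y hy => (hbad x hx y hy).1)
    exact (hbad x hx y hy).2 ht

end Pool.Agent.AL
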