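import Pool.Agent.helper7.AL.SpecL

/-!
# MP_bf63dc_nt, row LJA: the copies are admissible
-/

set_option autoImplicit false

namespace Pool.Agent.LD

open Finset Pool.Agent.helper85.FC Pool.Agent.AT

theorem LJA : LJA_stmt := by
  classical
  intro k m Q s H μ h h₀ hQ hμ hh hH hA x hx p hp
  have hpZ : Prime (p : ℤ) := Nat.prime_iff_prime_int.mp hp
  by_cases hpQ : p ∣ Q
  · refine ⟨0, fun t ht => ?_⟩
    have hxm : x (finProdFinEquiv.symm t).1 (finProdFinEquiv.symm t).2 ∈ H (finProdFinEquiv.symm t).2 :=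
      (Fintype.mem_piFinset.mp (hx _)) _
    have h1 := hH p hp hpQ _ _ hxm
    apply h1
    simp only [cop, Nat.cast_zero, mul_zero, zero_add] at ht
    have h2 : (p : ℤ) ∣ h (finProdFinEquiv.symm t).1 - h₀ := dvd_trans (Int.natCast_dvd_natCast.mpr hpQ) (hh _)
    have h3 := dvd_sub ht (Dvd.dvd.mul_left h2 (s (finProdFinEquiv.symm t).2 : ℤ))
    have e : (s (finProdFinEquiv.symm t).2 : ℤ) * h (finProdFinEquiv.symm t).1 +
        x (finProdFinEquiv.symm t).1 (finProdFinEquiv.symm t).2 -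
        (s (finProdFinEquiv.symm t).2 : ℤ) * (h (finProdFinEquiv.symm t).1 - h₀) =
        (s (finProdFinEquiv.symm t).2 : ℤ) * h₀ + x (finProdFinEquiv.symm t).1 (finProdFinEquiv.symm t).2 := by ring
    rwa [e] at h3
  · have hmk : m * k < p := by
      by_contra hcc
      push Not at hcc
      exact hpQ (hQ p hp hcc)
    by_contra hcon
    push Not at hcon
    choose g hg using hcon
    have hcard : Fintype.card (Fin (m * k)) < Fintype.card (Fin p) := by
      rw [Fintype.card_fin, Fintype.card_fin]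
      exact hmk
    obtain ⟨n₁, n₂, hne, heq⟩ := Fintype.exists_ne_map_eq_of_card_lt (fun n : Fin p => g (n : ℕ)) hcard
    have heq : g (n₁ : ℕ) = g (n₂ : ℕ) := heq
    have h1 := hg (n₁ : ℕ)
    have h2 := hg (n₂ : ℕ)
    rw [heq] at h1
    set t := g (n₂ : ℕ) with ht
    simp only [cop] at h1 h2
    set p' := (finProdFinEquiv.symm t).1 with hp'
    set i := (finProdFinEquiv.symm t).2 with hi
    by_cases hsi : (p : ℤ) ∣ (s i : ℤ)
    · obtain ⟨n, hn⟩ := hA (x p') (hx p') p hp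
      apply hn i
      simp only [fo]
      have h3 : (p : ℤ) ∣ x p' i := by
        have h4 : (p : ℤ) ∣ ((s i * μ p' : ℕ) : ℤ) * ((n₂ : ℕ) : ℤ) + (s i : ℤ) * h p' := by
          push_cast
          exact dvd_add (Dvd.dvd.mul_right (Dvd.dvd.mul_right hsi _) _) (Dvd.dvd.mul_right hsi _)
        have h5 := dvd_sub h2 h4
        have e : ((s i * μ p' : ℕ) : ℤ) * ((n₂ : ℕ) : ℤ) + ((s i : ℤ) * h p' + x p' i) -
            (((s i * μ p' : ℕ) : ℤ) * ((n₂ : ℕ) : ℤ) + (s i : ℤ) * h p') = x p' i := by ring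
        rwa [e] at h5
      exact dvd_add (Dvd.dvd.mul_right hsi _) h3
    · have h5 := dvd_sub h1 h2
      have e : ((s i * μ p' : ℕ) : ℤ) * ((n₁ : ℕ) : ℤ) + ((s i : ℤ) * h p' + x p' i) -
          (((s i * μ p' : ℕ) : ℤ) * ((n₂ : ℕ) : ℤ) + ((s i : ℤ) * h p' + x p' i)) =
          (s i : ℤ) * (μ p' : ℤ) * (((n₁ : ℕ) : ℤ) - ((n₂ : ℕ) : ℤ)) := by push_cast; ring
      rw [e] at h5
      rcases hpZ.dvd_or_dvd h5 with h6 | h6
      · rcases hpZ.dvd_or_dvd h6 with h7 | h7
        · exact hsi h7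
        · exact hpQ (dvd_trans (Int.natCast_dvd_natCast.mp h7) (hμ p'))
      · apply hne
        have h7 : (((n₁ : ℕ) : ℤ) - ((n₂ : ℕ) : ℤ)) = 0 := by
          apply Int.eq_zero_of_abs_lt_dvd h6
          have a1 := n₁.isLt
          have a2 := n₂.isLt
          rw [abs_lt]
          constructor <;> omega
        exact Fin.ext (by omega)

end Pool.Agent.LD
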